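import Pool.Agent.Helper41.Cluster4.Goals
import Pool.Agent.Helper45.Delone.FrameEx

/-! Packet F of MP_c45da2_co: the frame exists (after `Pool.Agent.Helper45.Delone.FrameEx`). -/

namespace Pool.Agent.Helper85.Cluster4

open Module Pool.Agent.Helper65.Delone Pool.Agent.Helper41.Cluster4
open Pool.Agent.Helper45.Delone (iso_trans iso_symm conj conj_apply fixSpace_conj)
open scoped RealInnerProductSpace

variable {E : Type*} [NormedAddCommGroup E] [InnerProductSpace ℝ E]

theorem conj_mem_sm {X : Set E} {L : ℝ} {x y : E} {A B : E ≃ₗᵢ[ℝ] E}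
    (hB : Iso X L x y B) (hA : A ∈ Sm X L x) : conj B A ∈ Sm X L y := by
  obtain ⟨h1, h2, h3⟩ := hA
  refine ⟨iso_trans (iso_symm hB) (iso_trans h1 hB), ?_, ?_⟩
  · intro h
    apply h2
    ext u
    have e : conj B A (B u) = B u := by rw [h]; rfl
    rw [conj_apply, B.symm_apply_apply] at e
    exact B.injective e
  · intro v
    have e : conj B A v - v = B (A (B.symm v) - B.symm v) := by
      rw [conj_apply, map_sub, B.apply_symm_apply]
    rw [e, B.norm_map]
    have := h3 (B.symm v)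
    rwa [B.symm.norm_map] at this

/-- lengths of moved cluster vectors -/
def Tset (X : Set E) (L : ℝ) (x : E) : Set ℝ :=
  {t | ∃ A ∈ Sm X L x, ∃ v : E, ‖v‖ ≤ L ∧ x + v ∈ X ∧ A v ≠ v ∧ ‖v‖ = t}

theorem tset_subset {X : Set E} {L : ℝ} {x y : E} {B : E ≃ₗᵢ[ℝ] E} (hB : Iso X L x y B) :
    Tset X L x ⊆ Tset X L y := by
  rintro t ⟨A, hA, v, hv, hvX, hne, rfl⟩
  refine ⟨conj B A, conj_mem_sm hB hA, B v, ?_, ?_, ?_, ?_⟩
  · rw [B.norm_map]; exact hv
  · exact (hB v hv).1 hvX
  · intro h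
    rw [conj_apply, B.symm_apply_apply] at h
    exact hne (B.injective h)
  · rw [B.norm_map]

theorem exFr {E : Type*} [NormedAddCommGroup E] [InnerProductSpace ℝ E] [FiniteDimensional ℝ E]
    (hs : SmallFacts E) (hf : FiniteNear E) (hp : ExistsPos E) : ExFr E := by
  intro h4 X D R hD hX hcong x₀ hx₀ hne₀
  set L : ℝ := 2 * R with hL
  -- all `T(x)` agree
  have hTeq : ∀ x ∈ X, Tset X L x = Tset X L x₀ := by
    intro x hx
    obtain ⟨B, hB⟩ := hcong x hx x₀ hx₀
    exact Set.Subset.antisymm (tset_subset hB) (tset_subset (iso_symm hB))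
  have hSne : ∀ x ∈ X, (Sm X L x).Nonempty := by
    intro x hx
    obtain ⟨B, hB⟩ := hcong x₀ hx₀ x hx
    obtain ⟨A, hA⟩ := hne₀
    exact ⟨conj B A, conj_mem_sm hB hA⟩
  have hTne : (Tset X L x₀).Nonempty := by
    obtain ⟨A, hA⟩ := hne₀
    have htop : fixSpace A ≠ ⊤ := by
      intro h
      apply hA.2.1
      ext u
      have : u ∈ fixSpace A := by rw [h]; trivial
      exact this
    have horth : (fixSpace A)ᗮ ≠ ⊥ := by
      intro h
      exact htop (Submodule.orthogonal_eq_bot_iff.1 h)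
    obtain ⟨u, hu, hu0⟩ := Submodule.exists_mem_ne_zero_of_ne_bot horth
    obtain ⟨z, hz, hzn, hzpos⟩ := hp X D R hD hX x₀ u hx₀ hu0
    refine ⟨‖z - x₀‖, A, hA, z - x₀, hzn, by rw [add_sub_cancel]; exact hz, ?_, rfl⟩
    intro h
    have h1 : ⟪z - x₀, u⟫ = 0 := (Submodule.mem_orthogonal _ _).1 hu (z - x₀) h
    linarith
  have hTfin : (Tset X L x₀).Finite := by
    refine ((hf X D hD hX.sep x₀ L).image (fun z => ‖z - x₀‖)).subset ?_
    rintro t ⟨A, hA, v, hv, hvX, hne, rfl⟩
    refine ⟨x₀ + v, ⟨hvX, ?_⟩, ?_⟩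
    · have : x₀ - (x₀ + v) = -v := by abel
      rw [this, norm_neg]; exact hv
    · simp
  obtain ⟨W, hWT, hWmin⟩ := Set.exists_min_image _ id hTfin hTne
  simp only [id] at hWmin
  have hWL : W ≤ L := by
    obtain ⟨A, hA, v, hv, hvX, hne, rfl⟩ := hWT
    exact hv
  have hWpos : 0 < W := by
    obtain ⟨A, hA, v, hv, hvX, hne, rfl⟩ := hWT
    rw [norm_pos_iff]
    rintro rfl
    exact hne (map_zero A)
  have F1 : ∀ x ∈ X, ∀ z ∈ X, ‖z - x‖ < W → ∀ A ∈ Sm X L x, A (z - x) = z - x := by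
    intro x hx z hz hzW A hA
    by_contra hcon
    have : ‖z - x‖ ∈ Tset X L x :=
      ⟨A, hA, z - x, by linarith, by rw [add_sub_cancel]; exact hz, hcon, rfl⟩
    rw [hTeq x hx] at this
    have := hWmin _ this
    linarith
  have F2 : ∀ x ∈ X, ∃ A ∈ Sm X L x, ∃ v : E, ‖v‖ = W ∧ x + v ∈ X ∧ A v ≠ v := by
    intro x hx
    have : W ∈ Tset X L x := by rw [hTeq x hx]; exact hWT
    obtain ⟨A, hA, v, hv, hvX, hne, hvW⟩ := this
    exact ⟨A, hA, v, hvW, hvX, hne⟩
  -- the plane at a special point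
  obtain ⟨A, hA, v, hvW, hvX, hAv⟩ := F2 x₀ hx₀
  set y₀ := x₀ + v with hy₀
  set w := A v - v with hw
  set w' := A.symm v - v with hw'
  have hAsmall := hA.2.2
  have hwn : ‖w‖ ≤ 2 / 15 * W := by
    have := hAsmall v
    rwa [hvW] at this
  have hwn' : ‖w'‖ ≤ 2 / 15 * W := by
    have h1 : w' = -A.symm (A v - v) := by
      rw [hw', map_sub, A.symm_apply_apply]; abel
    rw [h1, norm_neg, A.symm.norm_map]
    exact hwn
  have hyw : y₀ + w ∈ X := by
    have h1 : y₀ + w = x₀ + A v := by rw [hy₀, hw]; abel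
    rw [h1]
    exact (hA.1 v (by rw [hvW]; exact hWL)).1 hvX
  have hyw' : y₀ + w' ∈ X := by
    have h1 : y₀ + w' = x₀ + A.symm v := by rw [hy₀, hw']; abel
    rw [h1]
    exact (iso_symm hA.1 v (by rw [hvW]; exact hWL)).1 hvX
  have hli : LinearIndependent ℝ ![w, w'] := (hs A hAsmall).1 v hAv
  set Q0 : Submodule ℝ E := Submodule.span ℝ {w, w'} with hQ0
  have hrange : Set.range ![w, w'] = {w, w'} := by
    simp [Matrix.range_cons, Matrix.range_empty, Set.pair_comm]
  have hQ0rank : finrank ℝ Q0 = 2 := by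
    have h1 := finrank_span_eq_card hli
    rw [hrange] at h1
    rw [hQ0, h1]; simp
  have hQ0fix : ∀ B ∈ Sm X L y₀, fixSpace B = Q0 := by
    intro B hB
    have h1 : w ∈ fixSpace B := by
      have := F1 y₀ hvX (y₀ + w) hyw (by rw [add_sub_cancel_left]; linarith) B hB
      rw [add_sub_cancel_left] at this
      exact this
    have h2 : w' ∈ fixSpace B := by
      have := F1 y₀ hvX (y₀ + w') hyw' (by rw [add_sub_cancel_left]; linarith) B hB
      rw [add_sub_cancel_left] at this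
      exact this
    have hle : Q0 ≤ fixSpace B := by
      rw [hQ0, Submodule.span_le]
      intro u hu
      rcases hu with rfl | hu
      · exact h1
      · rw [Set.mem_singleton_iff] at hu; rw [hu]; exact h2
    exact (Submodule.eq_of_le_of_finrank_le hle (by rw [hQ0rank]; exact (hs B hB.2.2).2 hB.2.1 h4)).symm
  -- the fixed spaces at all points
  have hfixAll : ∀ x ∈ X, ∃ C : E ≃ₗᵢ[ℝ] E, Iso X L y₀ x C ∧ ∀ B ∈ Sm X L x,
      fixSpace B = Q0.map (C.toLinearEquiv : E →ₗ[ℝ] E) := by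
    intro x hx
    obtain ⟨C, hC⟩ := hcong y₀ hvX x hx
    refine ⟨C, hC, ?_⟩
    intro B hB
    have h1 := hQ0fix _ (conj_mem_sm (iso_symm hC) hB)
    have h2 : conj C (conj C.symm B) = B := by
      ext u
      simp [conj_apply]
    rw [← h1, ← fixSpace_conj, h2]
  let Q : E → Submodule ℝ E := fun x => ⨅ B ∈ Sm X L x, fixSpace B
  have hQ : ∀ x ∈ X, ∀ B ∈ Sm X L x, fixSpace B = Q x := by
    intro x hx B hB
    obtain ⟨C, hC, hall⟩ := hfixAll x hx
    apply le_antisymm
    · refine le_iInf₂ ?_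
      intro B' hB'
      rw [hall B hB, hall B' hB']
    · exact iInf₂_le B hB
  have hQC : ∀ x ∈ X, ∃ C : E ≃ₗᵢ[ℝ] E, Iso X L y₀ x C ∧
      Q x = Q0.map (C.toLinearEquiv : E →ₗ[ℝ] E) := by
    intro x hx
    obtain ⟨C, hC, hall⟩ := hfixAll x hx
    obtain ⟨B, hB⟩ := hSne x hx
    exact ⟨C, hC, by rw [← hQ x hx B hB, hall B hB]⟩
  refine ⟨W, Q, ?_⟩
  exact
    { W_pos := hWpos
      W_le := hWL
      S_ne := hSne
      S_fix := by
        intro x hx B hB u
        rw [← hQ x hx B hB, mem_fixSpace]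
      Q_rank := by
        intro x hx
        obtain ⟨C, hC, hQx⟩ := hQC x hx
        rw [hQx, ← hQ0rank]
        exact LinearEquiv.finrank_map_eq C.toLinearEquiv Q0
      near := by
        intro x hx z hz hzW
        obtain ⟨B, hB⟩ := hSne x hx
        rw [← hQ x hx B hB, mem_fixSpace]
        exact F1 x hx z hz hzW B hB
      partner := by
        intro x hx
        obtain ⟨B, hB, u, huW, huX, hBu⟩ := F2 x hx
        refine ⟨x + u, huX, by rw [add_sub_cancel_left]; exact huW, ?_⟩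
        rw [add_sub_cancel_left, ← hQ x hx B hB, mem_fixSpace]
        exact hBu
      gens := by
        intro x hx
        obtain ⟨C, hC, hQx⟩ := hQC x hx
        refine ⟨C w, C w', ?_, ?_, ?_, ?_, ?_⟩
        · exact (hC w (by linarith)).1 hyw
        · exact (hC w' (by linarith)).1 hyw'
        · rw [C.norm_map]; exact hwn
        · rw [C.norm_map]; exact hwn'
        · rw [hQx, hQ0, Submodule.map_span, Set.image_pair]
          rfl
      cong := hcong }

end Pool.Agent.Helper85.Cluster4
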